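import Pool.Agent.K1H72.CD.Stm

/-! Self-duality and symmetry of the box (project CD, piece SYM). -/

set_option autoImplicit false

namespace Pool.Agent.K1H68.CD

open H974 H12S Finset Pool.Agent.K1H72.CD

/-- the increasing event -/
def VV (F : Finset Edg) : Prop := Reach ((↑F : Set Edg) \ {e1}) (0, 0) (1, 0)

theorem VV_incr (S : Finset Edg) : IncrE S VV := by
  intro F G hFG _ h
  refine Reach.mono ?_ h
  intro e he
  exact ⟨by exact_mod_cast hFG (by exact_mod_cast he.1), he.2⟩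

theorem u_eq (m : ℕ) : u m = Pr (fun _ => (1 / 2 : ℝ)) (boxE m) VV := by
  refine Pr_congr fun F hF => ?_
  unfold U VV
  have h1 : (↑F : Set Edg) ∩ ↑(boxE m) = ↑F := by
    rw [Set.inter_eq_left]
    exact_mod_cast hF
  rw [h1]

/-- the dual box, moved -/
noncomputable def TT (m : ℕ) : Finset Edg := tps.mp ((trl 0 1).mp (dmp (boxE m)))

theorem event_iff (G : Finset Edg) : DReach ((↑G : Set Edg) \ {e1}) (0, -1) (0, 0) ↔
    VV (tps.mp ((trl 0 1).mp (dmp G))) := by
  rw [← reach_dl, ← (trl 0 1).reach_iff, ← tps.reach_iff]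
  unfold VV
  have h1 : tps.φ '' ((trl 0 1).φ '' (dl '' ((↑G : Set Edg) \ {e1}))) =
      (↑(tps.mp ((trl 0 1).mp (dmp G))) : Set Edg) \ {e1} := by
    rw [LSym.coe_mp, LSym.coe_mp, coe_dmp, Set.image_diff dl.injective,
      Set.image_diff (trl 0 1).φ.injective, Set.image_diff tps.φ.injective,
      Set.image_singleton, Set.image_singleton, Set.image_singleton]
    rfl
  rw [h1]
  rfl

theorem d_eq (m : ℕ) : d m = Pr (fun _ => (1 / 2 : ℝ)) (TT m) VV := by
  have h1 : d m = Pr (fun _ => (1 / 2 : ℝ)) (boxE m)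
      (fun F => DReach ((↑(boxE m \ F) : Set Edg) \ {e1}) (0, -1) (0, 0)) := by
    refine Pr_congr fun F _ => ?_
    unfold D
    rw [Finset.coe_sdiff]
  have h2 := Pr_compl (fun _ : Edg => (1 / 2 : ℝ)) (boxE m)
    (fun G => DReach ((↑G : Set Edg) \ {e1}) (0, -1) (0, 0))
  have h3 : (fun e : Edg => 1 - (fun _ : Edg => (1 / 2 : ℝ)) e) = fun _ => (1 / 2 : ℝ) := by
    funext e
    norm_num
  rw [h3] at h2
  rw [h1, ← h2]
  have h4 : Pr (fun _ => (1 / 2 : ℝ)) (TT m) VV =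
      Pr (fun _ => (1 / 2 : ℝ)) (boxE m)
        (fun F => VV (tps.mp ((trl 0 1).mp (dmp F)))) := by
    unfold TT
    rw [tps.pr, (trl 0 1).pr, pr_dmp]
  rw [h4]
  exact Pr_congr fun F _ => event_iff F

theorem mem_TT_true (m : ℕ) (x y : ℤ) :
    ((x, y, true) : Edg) ∈ TT m ↔ (-m : ℤ) ≤ y ∧ y < m ∧ (-m : ℤ) ≤ x ∧ x ≤ m := by
  unfold TT boxE
  rw [LSym.mem_mp, tps_φs, Bool.not_true, LSym.mem_mp, trl_φs, mem_dmp, dls_f, mem_RE_true]
  omega

theorem mem_TT_false (m : ℕ) (x y : ℤ) :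
    ((x, y, false) : Edg) ∈ TT m ↔
      (-m : ℤ) ≤ y + 1 ∧ y + 1 ≤ m ∧ (-m : ℤ) ≤ x - 1 ∧ x - 1 < m := by
  unfold TT boxE
  rw [LSym.mem_mp, tps_φs, Bool.not_false, LSym.mem_mp, trl_φs, mem_dmp, dls_t, mem_RE_false]
  omega

theorem t_SYM : S_SYM := by
  have hok : Ok (fun _ : Edg => (1 / 2 : ℝ)) := okq (by norm_num) (by norm_num)
  refine ⟨fun m => ?_, fun m => ?_, fun m n hmn => ?_⟩
  · rw [u_eq, d_eq]
    refine Pr_mono_set hok ?_ (VV_incr _)
    rintro ⟨x, y, _ | _⟩ h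
    · rw [mem_TT_false]
      unfold boxE at h
      rw [mem_RE_false] at h
      push_cast
      omega
    · rw [mem_TT_true]
      unfold boxE at h
      rw [mem_RE_true] at h
      push_cast
      omega
  · rw [u_eq, d_eq]
    refine Pr_mono_set hok ?_ (VV_incr _)
    rintro ⟨x, y, _ | _⟩ h
    · rw [mem_TT_false] at h
      unfold boxE
      rw [mem_RE_false]
      push_cast
      omega
    · rw [mem_TT_true] at h
      unfold boxE
      rw [mem_RE_true]
      push_cast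
      omega
  · rw [u_eq, u_eq]
    refine Pr_mono_set hok ?_ (VV_incr _)
    rintro ⟨x, y, _ | _⟩ h
    · unfold boxE at h ⊢
      rw [mem_RE_false] at h ⊢
      omega
    · unfold boxE at h ⊢
      rw [mem_RE_true] at h ⊢
      omega

end Pool.Agent.K1H68.CD

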